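import Mathlib

/-!
# Project LK (helper356), part GK4a: the numerical inequality (helper227)
-/

set_option autoImplicit false
set_option linter.all false

namespace Pool.Agent.N356.SP

namespace Numer

/-- The inequality in the case that all indices but one have sum at most four. -/
theorem core (m q δ M y : ℤ) (hm1 : 1 ≤ m) (hm4 : m ≤ 4) (hq1 : m ≤ q) (hq2 : q ≤ m * m)
    (hδ1 : 2 * m - q ≤ δ) (hδ0 : 0 ≤ δ) (hδ2 : δ ≤ q) (hM4 : 4 ≤ M) (hMq : q ≤ m * (M - m))
    (hy : m % 2 ≤ y) :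
    0 ≤ (2 * M * m - m * m - q) ^ 2 + 4 * (2 * M * m - m * m - q) * (y + δ) + 3 * (y + δ) ^ 2 -
      18 * M * (m * m - q) + 12 * (m + 1) * (m * m - q) -
      6 * (y * (M + 2 * m) + 3 * M * δ - 2 * δ) := by
  have hy0 : 0 ≤ y := by omega
  interval_cases m <;> interval_cases q <;> norm_num at hMq hy ⊢ <;>
  · first
    | nlinarith [mul_nonneg hy0 hδ0, mul_nonneg hy0 (sub_nonneg.2 hM4), mul_nonneg hδ0 (sub_nonneg.2 hM4),
        mul_nonneg (sub_nonneg.2 hδ2) (sub_nonneg.2 hM4), mul_nonneg (sub_nonneg.2 hδ1) (sub_nonneg.2 hM4),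
        mul_nonneg (sub_nonneg.2 hy) (sub_nonneg.2 hM4), sq_nonneg (M - 4), sq_nonneg (y - 1),
        mul_nonneg (sub_nonneg.2 hy) (sub_nonneg.2 hδ1)]

theorem par {N d : ℤ} (h0 : 0 ≤ d) (h1 : d ≤ N) (h2 : (2 : ℤ) ∣ N - d) : 2 * N - N ^ 2 ≤ d ^ 2 := by
  rcases lt_or_ge N 2 with h | h
  · have hN : N = 0 ∨ N = 1 := by omega
    rcases hN with rfl | rfl
    · nlinarith
    · have : d = 1 := by omega
      rw [this]
      norm_num
  · nlinarith [sq_nonneg d]

end Numer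

open Numer in
/-- GK4a: the numerical inequality (one summand for each pair of opposite classes) -/
theorem numer {ι : Type*} (s : Finset ι) (N d : ι → ℤ) (h0 : ∀ i ∈ s, 0 ≤ d i)
    (h1 : ∀ i ∈ s, d i ≤ N i) (h2 : ∀ i ∈ s, (2:ℤ) ∣ N i - d i) {M : ℤ} (hM : ∑ i ∈ s, N i = M)
    (hM2 : (2:ℤ) ∣ M) (hM4 : 4 ≤ M) (h3 : ∀ i ∈ s, N i = M → d i = 0) :
    6 * (∑ i ∈ s, N i * (M - N i) * (M - 2 * N i)) + 6 * (∑ i ∈ s, d i ^ 2 * (3 * M - 2 * N i)) ≤
      (M ^ 2 - ∑ i ∈ s, N i ^ 2 + ∑ i ∈ s, d i ^ 2) *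
        (M ^ 2 - ∑ i ∈ s, N i ^ 2 + 3 * ∑ i ∈ s, d i ^ 2) := by
  classical
  have hN0 : ∀ i ∈ s, 0 ≤ N i := fun i hi => (h0 i hi).trans (h1 i hi)
  have hne : s.Nonempty := by
    rw [Finset.nonempty_iff_ne_empty]
    rintro rfl
    rw [Finset.sum_empty] at hM
    omega
  obtain ⟨i₁, hi₁, hmax⟩ := Finset.exists_max_image s N hne
  set R := s.erase i₁ with hR
  have hRs : ∀ i ∈ R, i ∈ s := fun i hi => Finset.mem_of_mem_erase hi
  have split : ∀ f : ι → ℤ, ∑ i ∈ s, f i = f i₁ + ∑ i ∈ R, f i := fun f =>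
    (Finset.add_sum_erase s f hi₁).symm
  set N1 := N i₁ with hN1
  set x := d i₁ with hx
  set m := ∑ i ∈ R, N i with hm
  set q := ∑ i ∈ R, N i ^ 2 with hq
  set c := ∑ i ∈ R, N i ^ 3 with hc
  set δ := ∑ i ∈ R, d i ^ 2 with hδ
  set w := ∑ i ∈ R, d i ^ 2 * N i with hw
  have hM1 : N1 + m = M := by rw [← hM, split]
  have hm0 : 0 ≤ m := Finset.sum_nonneg fun i hi => hN0 i (hRs i hi)
  have hN10 : 0 ≤ N1 := hN0 i₁ hi₁
  have hNm : ∀ i ∈ R, N i ≤ m := fun i hi =>
    Finset.single_le_sum (fun j hj => hN0 j (hRs j hj)) hi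
  -- the sums
  have S2 : ∑ i ∈ s, N i ^ 2 = N1 ^ 2 + q := split _
  have SD : ∑ i ∈ s, d i ^ 2 = x ^ 2 + δ := split _
  have ST : ∑ i ∈ s, N i * (M - N i) * (M - 2 * N i) =
      M ^ 3 - 3 * M * (N1 ^ 2 + q) + 2 * (N1 ^ 3 + c) := by
    have e : ∀ i, N i * (M - N i) * (M - 2 * N i) =
        M ^ 2 * N i - 3 * M * N i ^ 2 + 2 * N i ^ 3 := fun i => by ring
    simp_rw [e]
    rw [Finset.sum_add_distrib, Finset.sum_sub_distrib, ← Finset.mul_sum, ← Finset.mul_sum,
      ← Finset.mul_sum, hM, S2, split (fun i => N i ^ 3)]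
    ring
  have SU : ∑ i ∈ s, d i ^ 2 * (3 * M - 2 * N i) =
      3 * M * (x ^ 2 + δ) - 2 * (x ^ 2 * N1 + w) := by
    have e : ∀ i, d i ^ 2 * (3 * M - 2 * N i) = 3 * M * d i ^ 2 - 2 * (d i ^ 2 * N i) := fun i => by
      ring
    simp_rw [e]
    rw [Finset.sum_sub_distrib, ← Finset.mul_sum, ← Finset.mul_sum, SD,
      split (fun i => d i ^ 2 * N i)]
  -- the simple inequalities
  have q1 : m ≤ q := Finset.sum_le_sum fun i hi => by
    have := hN0 i (hRs i hi)
    rcases eq_or_lt_of_le this with h | h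
    · rw [← h]; norm_num
    · nlinarith
  have q2 : q ≤ m * m := by
    rw [hq, hm, Finset.sum_mul]
    refine Finset.sum_le_sum fun i hi => ?_
    rw [pow_two]
    exact mul_le_mul_of_nonneg_left (hNm i hi) (hN0 i (hRs i hi))
  have q3 : q ≤ m * (M - m) := by
    have e : M - m = N1 := by linarith
    rw [hq, e, hm, Finset.sum_mul]
    refine Finset.sum_le_sum fun i hi => ?_
    rw [pow_two]
    exact mul_le_mul_of_nonneg_left (hmax i (hRs i hi)) (hN0 i (hRs i hi))
  have d0 : 0 ≤ δ := Finset.sum_nonneg fun i _ => sq_nonneg _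
  have d2 : δ ≤ q := Finset.sum_le_sum fun i hi =>
    pow_le_pow_left₀ (h0 i (hRs i hi)) (h1 i (hRs i hi)) 2
  have d1 : 2 * m - q ≤ δ := by
    rw [hm, hq, hδ, Finset.mul_sum, ← Finset.sum_sub_distrib]
    exact Finset.sum_le_sum fun i hi => par (h0 i (hRs i hi)) (h1 i (hRs i hi)) (h2 i (hRs i hi))
  have w1 : δ ≤ w := Finset.sum_le_sum fun i hi => by
    have a := h0 i (hRs i hi)
    have b := h1 i (hRs i hi)
    rcases eq_or_lt_of_le a with h | h
    · rw [← h]; norm_num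
    · have : 1 ≤ N i := by omega
      nlinarith [sq_nonneg (d i)]
  have c1 : c ≤ (m + 1) * q - m * m := by
    have e : (m + 1) * q - m * m = ∑ i ∈ R, ((m + 1) * N i ^ 2 - m * N i) := by
      rw [Finset.sum_sub_distrib, ← Finset.mul_sum, ← Finset.mul_sum]
    rw [e]
    refine Finset.sum_le_sum fun i hi => ?_
    have a := hN0 i (hRs i hi)
    have b := hNm i hi
    rcases eq_or_lt_of_le a with h | h
    · rw [← h]; norm_num
    · have : 0 ≤ N i * ((N i - 1) * (m - N i)) :=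
        mul_nonneg a (mul_nonneg (by linarith) (by linarith))
      nlinarith
  rw [ST, SU, S2, SD]
  have eN : N1 = M - m := by linarith
  rcases eq_or_lt_of_le hm0 with hm00 | hmpos
  · -- one class only
    have hx0 : x = 0 := h3 i₁ hi₁ (by rw [← hN1, eN, ← hm00]; ring)
    have hq0 : q = 0 := by
      rw [← hm00] at q2 q1
      linarith
    have hδ0 : δ = 0 := by linarith
    have hc0 : c ≤ 0 := by
      rw [← hm00, hq0] at c1
      linarith
    have hw0 : 0 ≤ w := by linarith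
    rw [hx0, hq0, hδ0, eN, ← hm00]
    nlinarith
  rcases lt_or_ge m 5 with hm5 | hm5
  · have hy : m % 2 ≤ x ^ 2 := by
      rcases Int.emod_two_eq_zero_or_one m with h | h
      · rw [h]; positivity
      · rw [h]
        have a := h0 i₁ hi₁
        have b := h2 i₁ hi₁
        rw [← hN1, ← hx] at b
        rw [← hx] at a
        have : 1 ≤ x := by omega
        nlinarith
    have key := core m q δ M (x ^ 2) (by omega) (by omega) q1 q2 d1 d0 d2 hM4 q3 hy
    rw [eN]
    nlinarith [key, c1, w1]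
  · -- `m ≥ 5`
    have hN1p : 1 ≤ N1 := by
      by_contra hcon
      have h00 : N1 = 0 := by omega
      have : m ≤ 0 := by
        rw [hm]
        apply Finset.sum_nonpos
        intro i hi
        have := hmax i (hRs i hi)
        omega
      omega
    have hM6 : 6 ≤ M := by omega
    -- `A ≥ m M`
    have hA : m * M ≤ M ^ 2 - (N1 ^ 2 + q) := by
      have e : M ^ 2 - (N1 ^ 2 + q) = ∑ i ∈ s, N i * (M - N i) := by
        have e2 : ∀ i, N i * (M - N i) = M * N i - N i ^ 2 := fun i => by ring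
        simp_rw [e2]
        rw [Finset.sum_sub_distrib, ← Finset.mul_sum, hM, S2]
        ring
      rw [e, ← hM, Finset.mul_sum, hM]
      refine Finset.sum_le_sum fun i hi => ?_
      rw [mul_comm]
      apply mul_le_mul_of_nonneg_left _ (hN0 i hi)
      have := hmax i hi
      linarith
    set A := M ^ 2 - (N1 ^ 2 + q) with hAdef
    set D := x ^ 2 + δ with hDdef
    have hD0 : 0 ≤ D := by positivity
    have hW0 : 0 ≤ x ^ 2 * N1 + w := by
      have : 0 ≤ w := d0.trans w1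
      positivity
    -- Newton
    set T := M ^ 3 - 3 * M * (N1 ^ 2 + q) + 2 * (N1 ^ 3 + c) with hT
    have hS3 : ∑ i ∈ s, N i ^ 3 = N1 ^ 3 + c := split _
    have hNewt : M * T ≤ A ^ 2 := by
      have a1 : 0 ≤ ∑ i ∈ s, (N i * (M - N i)) ^ 2 := Finset.sum_nonneg fun i _ => sq_nonneg _
      have a2 : ∑ i ∈ s, (N i * (M - N i)) ^ 2 = M ^ 2 * (N1 ^ 2 + q) - 2 * M * (N1 ^ 3 + c) +
          ∑ i ∈ s, N i ^ 4 := by
        have e : ∀ i, (N i * (M - N i)) ^ 2 = M ^ 2 * N i ^ 2 - 2 * M * N i ^ 3 + N i ^ 4 :=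
          fun i => by ring
        simp_rw [e]
        rw [Finset.sum_add_distrib, Finset.sum_sub_distrib, ← Finset.mul_sum, ← Finset.mul_sum,
          S2, hS3]
      have a3 : ∑ i ∈ s, N i ^ 4 ≤ (N1 ^ 2 + q) ^ 2 := by
        rw [← S2, pow_two, Finset.sum_mul]
        refine Finset.sum_le_sum fun i hi => ?_
        have e : N i ^ 4 = N i ^ 2 * N i ^ 2 := by ring
        rw [e]
        exact mul_le_mul_of_nonneg_left
          (Finset.single_le_sum (f := fun i => N i ^ 2) (fun j _ => sq_nonneg _) hi) (sq_nonneg _)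
      have a4 : A ^ 2 - M * T = M ^ 2 * (N1 ^ 2 + q) - 2 * M * (N1 ^ 3 + c) + (N1 ^ 2 + q) ^ 2 := by
        rw [hAdef, hT]
        ring
      linarith
    have hT6 : 6 * T ≤ A ^ 2 := by
      rcases le_or_gt 0 T with h | h
      · nlinarith
      · nlinarith [sq_nonneg A]
    have hA5 : 5 * M ≤ A := by nlinarith
    have h18 : 18 * M * D ≤ 4 * A * D := by
      apply mul_le_mul_of_nonneg_right _ hD0
      linarith
    nlinarith [sq_nonneg D]

end Pool.Agent.N356.SP
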